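import Pool.Agent.TH639.SC.Bnd

/-!
Non-vanishing at `s = 1` of the L-functions of all twists, by polynomials composed of inert primes, of
the Jacobians of the superelliptic curves `y ^ ℓ = f(x) - t` over `k(t)`: finite Tate-Shafarevich
groups over all finite extensions in an infinite extension of `k(t)`.
-/

set_option autoImplicit false
set_option maxHeartbeats 1000000

open Polynomial

namespace Pool.Agent.Results.MP_72e2e6_nt.InertCharacterTwists

/-- The closed points of the affine line over the field `F`: monic irreducible polynomials. -/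
abbrev ClosedPt (F : Type) [Field F] : Type := {P : F[X] // P.Monic ∧ Irreducible P}

/-- The Euler product: its coefficient of index `n` is that of the product of the factors of degree
at most `n`. -/
noncomputable def eulerProduct {ι A : Type} [CommRing A] (d : ι → ℕ) (f : ι → PowerSeries A) :
    PowerSeries A :=
  PowerSeries.mk fun n => PowerSeries.coeff n (∏ᶠ (i : ι) (_ : d i ≤ n), f i)

section defs

variable {k : Type} [Field k]

section generic

variable {A F : Type} [CommRing A] [Field F] [Algebra k F]

/-- The Euler factor `1 - χ(N g(Q)) T ^ n` at the closed point `Q`, of degree `n`, of the line over a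
finite extension `F` of `k`: here `N g(Q)` is the norm to `k` of the value of the polynomial `g` at
`Q`, and `χ(0) = 0`. -/
noncomputable def localFactor (χ : MulChar k A) (g Q : F[X]) (n : ℕ) : PowerSeries A :=
  1 - PowerSeries.C (χ (Algebra.norm k (AdjoinRoot.mk Q g))) * PowerSeries.X ^ n

end generic

/-- The residue field of the closed point `P` of the `t`-line. -/
def Res (P : ClosedPt k) : Type := AdjoinRoot P.1

noncomputable instance resField (P : ClosedPt k) : Field (Res P) :=
  @AdjoinRoot.instField k _ P.1 ⟨P.2.2⟩

noncomputable instance resAlgebra (P : ClosedPt k) : Algebra k (Res P) :=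
  inferInstanceAs (Algebra k (AdjoinRoot P.1))

/-- The value at `P` of a polynomial in `t`. -/
noncomputable def value (P : ClosedPt k) (g : k[X]) : Res P := AdjoinRoot.mk P.1 g

/-- The inclusion of the constants in the residue field. -/
noncomputable def constants (P : ClosedPt k) : k →+* Res P := algebraMap k (Res P)

/-- The polynomial `D(t) (f(x) - t)` in `x` over the residue field of the closed point `P`. -/
noncomputable def fibre (f D : k[X]) (P : ClosedPt k) : (Res P)[X] :=
  C (value P D) * (f.map (constants P) - C (value P X))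

/-- The closed points of the `(t, x)`-plane with `D(t) ≠ 0`: a closed point of the `t`-line and a
closed point of the `x`-line over its residue field. -/
structure PlanePt (D : k[X]) : Type where
  place : ClosedPt k
  ndvd : ¬ place.1 ∣ D
  point : ClosedPt (Res place)

/-- The degree of a closed point of the plane. -/
noncomputable def PlanePt.deg {D : k[X]} (z : PlanePt D) : ℕ :=
  z.place.1.natDegree * z.point.1.natDegree

variable {A : Type} [CommRing A]

/-- The Euler factor of a closed point of the plane. -/
noncomputable def PlanePt.factor {D : k[X]} (χ : MulChar k A) (f : k[X]) (z : PlanePt D) :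
    PowerSeries A :=
  localFactor χ (fibre f D z.place) z.point.1 z.deg

/-- The `L`-function in the variable `T = q ^ (-s)` of the `χ`-part of the Jacobian of the curve
`y ^ ℓ = D(t) (f(x) - t)` over `k(t)`: the product of the factors of the closed points of the plane
with `D(t) ≠ 0`. -/
noncomputable def Lfun (χ : MulChar k A) (f D : k[X]) : PowerSeries A :=
  eulerProduct (fun z : PlanePt D => z.deg) (fun z => z.factor χ f)

/-- `L(T) = (1 - q T) ^ m G(T)` with a polynomial `G` over `A`: the function is a polynomial and
vanishes to order at least `m` at `s = 1`. -/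
def VanishesTo (χ : MulChar k A) (f D : k[X]) (m : ℕ) : Prop :=
  ∃ G : A[X], Lfun χ f D = (((1 - C (Nat.card k : A) * X) ^ m * G : A[X]) : PowerSeries A)

open Classical in
/-- The monic irreducible factors of a polynomial. -/
noncomputable def primes (g : k[X]) : Finset k[X] :=
  (UniqueFactorizationMonoid.normalizedFactors g).toFinset

/-- The greatest power of `ℓ` dividing `n`. -/
def lPart (ℓ n : ℕ) : ℤ := (ℓ : ℤ) ^ padicValNat ℓ n

open Classical in
/-- The bound: the sum over the prime factors `P` of `D` of the sum of `lPart (deg R)` over the prime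
factors `R` of `P(f(x))` minus `lPart (deg P)`. -/
noncomputable def bound (ℓ : ℕ) (f D : k[X]) : ℤ :=
  ∑ P ∈ primes D, (∑ R ∈ primes (P.comp f), lPart ℓ R.natDegree - lPart ℓ P.natDegree)

/-- The polynomial `f` is monic of degree prime to `ℓ` with `f' ≠ 0`, the polynomial `D` is not zero
and has no divisor which is the `ℓ`-th power of an irreducible polynomial, and `D(f(x))` is prime to
`f'(x)`. -/
structure IsAdmissible (ℓ : ℕ) (f D : k[X]) : Prop where
  monic : f.Monic
  prime_to : ¬ ℓ ∣ f.natDegree
  separable : derivative f ≠ 0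
  ne_zero : D ≠ 0
  powerFree : ∀ P : k[X], Irreducible P → ¬ P ^ ℓ ∣ D
  coprime : IsCoprime (D.comp f) (derivative f)

/-- The prime `P` is inert: `P(f(x))` is irreducible. -/
def IsInert (f P : k[X]) : Prop := Irreducible (P.comp f)

/-- The inert primes of degree `N`. -/
def inertPrimes (f : k[X]) (N : ℕ) : Set (ClosedPt k) :=
  {P | P.1.natDegree = N ∧ IsInert f P.1}

/-- The Dickson polynomial of the first kind of degree `n`, with `dick(x + a / x) = x ^ n +
(a / x) ^ n`. -/
noncomputable def dick (n : ℕ) (a : k) : k[X] := dickson 1 a n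

/-- At least the proportion `(n - 1) / (2 n)` of the primes is inert: the number `g` of inert primes
of degree `N` satisfies `(n - 1) (q ^ N - 1) ≤ 2 n (N g + ∑ q ^ d)`, where `d` runs through the proper
divisors of `N`. -/
def ManyInert (n : ℕ) (f : k[X]) : Prop :=
  ∀ N : ℕ, 0 < N → (n - 1) * (Nat.card k ^ N - 1) ≤
    2 * n * (N * (inertPrimes f N).ncard + ∑ d ∈ N.properDivisors, Nat.card k ^ d)

/-- the equivalence of the two descriptions of the points of the plane -/
noncomputable def planeEquiv (D : k[X]) :
    (Σ P : {P : Pool.Agent.W313.Hyp.MI k // ¬ P.1 ∣ D},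
      Pool.Agent.W313.Hyp.MI (Pool.Agent.TH943.HJ.RF P.1)) ≃ PlanePt D where
  toFun z := ⟨z.1.1, z.1.2, z.2⟩
  invFun z := ⟨⟨z.place, z.ndvd⟩, z.point⟩
  left_inv _ := rfl
  right_inv _ := rfl

theorem fibre_eq (f D : k[X]) (P : ClosedPt k) :
    fibre f D P = Pool.Agent.TH639.SC.tw 1 f D P := by
  have h : Pool.Agent.TH639.SC.tw 1 f D P =
      C (AdjoinRoot.mk P.1 D) * Pool.Agent.TH943.HJ.fib f P := by
    unfold Pool.Agent.TH639.SC.tw
    rw [Polynomial.map_one, one_mul]
  rw [h]
  rfl

theorem Lfun_eq (χ : MulChar k A) (f D : k[X]) :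
    Lfun χ f D = Pool.Agent.TH639.SC.LF χ 1 f D := by
  unfold Lfun Pool.Agent.TH639.SC.LF eulerProduct Pool.Agent.W343.BSD.eulerProd
  ext n
  rw [PowerSeries.coeff_mk, PowerSeries.coeff_mk]
  congr 1
  have h1 : ∀ z : (Σ P : {P : Pool.Agent.W313.Hyp.MI k // ¬ P.1 ∣ D},
      Pool.Agent.W313.Hyp.MI (Pool.Agent.TH943.HJ.RF P.1)),
      Pool.Agent.TH639.SC.lf χ (Pool.Agent.TH639.SC.tw 1 f D z.1.1) z.2.1
        (z.1.1.1.natDegree * z.2.1.natDegree) = (planeEquiv D z).factor χ f := by
    intro z
    show _ = localFactor χ (fibre f D z.1.1) z.2.1 (z.1.1.1.natDegree * z.2.1.natDegree)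
    rw [fibre_eq]
    rfl
  simp only [h1]
  exact (finprod_comp_equiv (planeEquiv D)
    (f := fun z : PlanePt D => ∏ᶠ (_ : z.deg ≤ n), z.factor χ f)).symm

theorem bound_eq [Finite k] (ℓ : ℕ) {f D : k[X]} (hf : 0 < f.natDegree) (hD : D ≠ 0) :
    bound ℓ f D =
      (Pool.Agent.TH639.SC.cPhi ℓ f D : ℤ) - Pool.Agent.TH639.SC.cD ℓ D := by
  rw [Pool.Agent.TH639.SC.cPhi_eq ℓ hf hD, Pool.Agent.TH639.SC.cD_eq ℓ hD,
    ← Finset.sum_sub_distrib]
  rfl

end defs

/-- **Finite Tate-Shafarevich groups over an infinite extension.**

Let `ℓ` be an odd prime and `k` a finite field with `q` elements with a character `χ` of `kˣ` of order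
`ℓ` (so `ℓ` divides `q - 1`), with values in an integral domain `A` of characteristic zero which is
integral over the integers, for instance in `A = ℤ[ζ]`, `ζ` a primitive `ℓ`-th root of unity. Let `f`
in `k[x]` be monic of degree `n` prime to `ℓ` with `f' ≠ 0`. For an `ℓ`-power-free polynomial `D` in
`k[t]`, with `D(f(x))` prime to `f'(x)`, let `J_D` be the Jacobian, of dimension
`(ℓ - 1) (n - 1) / 2`, of the curve `y ^ ℓ = D(t) (f(x) - t)` over `K = k(t)`, which is branched at
`x = ∞` and at the zeros of `f(x) - t`, and let `J = J_1`. The cohomology of `J_D` is the direct sum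
of its parts for the `ℓ - 1` characters of order `ℓ` of the group of the covering, and `L(J_D, s)` is
the product of the `ℓ - 1` conjugate functions `L_χ(D)`, which are polynomials in `T = q ^ (-s)` over
`ℤ[ζ]` with the same order of vanishing at `s = 1`. The function `L_χ(D)` is `Lfun`: the surface
`y ^ ℓ = f(x) - t` is smooth, so that at a finite place prime to `D` the invariants under inertia are
the cohomology of the fibre (local invariant cycle theorem); at a place dividing `D` the curve is a
ramified twist of a curve with good reduction, and there are no invariants; at `t = ∞` all the zeros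
of `f(x) - t` tend to the branch point `x = ∞`, and there are no invariants.

(1) The order of vanishing of `L_χ(D)` at `s = 1` is at most `bound`.

(2) Let `e` in `k` not be an `ℓ`-th power. Then even the sum of the orders of vanishing at `s = 1` of
the `ℓ` functions `L_χ(e ^ j D)`, `j = 0, ..., ℓ - 1`, is at most `bound`.

(3) If `P(f(x))` is irreducible for all the prime factors `P` of `D` then the bound is zero and
`L_χ(D)` does not vanish at `s = 1`. By the results of Tate, Milne and Kato and Trihan the group
`Sha(J_D / K)` is finite and the rank of `J_D` over `K` is zero. Moreover let `M` be the (infinite)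
extension of `K` generated by the `ℓ`-th roots of all constants and of all the primes `P` with
`P(f(x))` irreducible, and `L` a finite extension of `K` in `M`. The L-function of `J` over `L` is the
product of the functions `L_χ(D)` for the `ℓ - 1` characters `χ` and the `D`, composed of inert primes
and constants, whose `ℓ`-th roots are in `L`. So it does not vanish at `s = 1`, and `Sha(J / L)` is
finite and `J(L)` is finite for all these `L`.

(4) Let `n` be an odd prime dividing `q ^ 2 - 1` and `a` in `k` not zero. For the Dickson polynomial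
`f` of degree `n` at least the proportion `(n - 1) / (2 n)` of the primes of every degree is inert. -/
theorem result (ℓ : ℕ) (hℓ : ℓ.Prime) (_h2 : ℓ ≠ 2) (k : Type) [Field k] [Finite k] :
    (∀ (A : Type) [CommRing A] [IsDomain A] [CharZero A] [Algebra.IsIntegral ℤ A]
      (χ : MulChar k A), orderOf χ = ℓ → ∀ f D : k[X], IsAdmissible ℓ f D →
      (∀ m : ℕ, VanishesTo χ f D m → (m : ℤ) ≤ bound ℓ f D) ∧
      (∀ e : k, (∀ v : k, v ^ ℓ ≠ e) → ∀ r : ℕ → ℕ,
        (∀ j < ℓ, VanishesTo χ f (C (e ^ j) * D) (r j)) →
        (∑ j ∈ Finset.range ℓ, (r j : ℤ)) ≤ bound ℓ f D) ∧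
      ((∀ P ∈ primes D, IsInert f P) → bound ℓ f D = 0 ∧ ¬ VanishesTo χ f D 1)) ∧
    (∀ (n : ℕ) (a : k), n.Prime → n ≠ 2 → n ∣ Nat.card k ^ 2 - 1 → a ≠ 0 →
      ManyInert n (dick n a)) := by
  constructor
  · intro A _ _ _ _ χ hχ f D h
    have hn : 0 < f.natDegree := by
      rcases Nat.eq_zero_or_pos f.natDegree with h0 | h0
      · exact absurd (by rw [h0]; exact dvd_zero ℓ) h.prime_to
      · exact h0
    have h1 : ∀ m : ℕ, VanishesTo χ f D m → (m : ℤ) ≤ bound ℓ f D := by
      rintro m ⟨G, hG⟩
      rw [Lfun_eq] at hG
      have h2 := Pool.Agent.TH639.SC.order_one_A hℓ hχ hn h.ne_zero hG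
      rw [bound_eq ℓ hn h.ne_zero]
      zify at h2
      linarith
    refine ⟨h1, ?_, ?_⟩
    · intro e he r hr
      have h2 := Pool.Agent.TH639.SC.order_sum_A hℓ hχ (e := e) (by push Not; exact he) hn
        h.ne_zero r (fun j hj => by
          obtain ⟨G, hG⟩ := hr j hj
          exact ⟨G, by rw [← Lfun_eq]; exact hG⟩)
      rw [bound_eq ℓ hn h.ne_zero]
      zify at h2
      linarith
    · intro hin
      have h3 : bound ℓ f D = 0 := by
        refine Finset.sum_eq_zero fun P hP => ?_
        obtain ⟨p1, p2, _⟩ := (Pool.Agent.TH639.SC.mem_primes h.ne_zero P).1 hP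
        have h4 := Pool.Agent.TH639.SC.sum_over_inert hℓ h.monic hn h.prime_to ⟨P, p1, p2⟩
          (hin P hP)
        have h5 : ∑ S ∈ primes (P.comp f), lPart ℓ S.natDegree =
            ((∑ S ∈ Pool.Agent.W313.Hyp.facs (P.comp f), ℓ ^ padicValNat ℓ S.1.natDegree : ℕ) :
              ℤ) := by
          have h6 := Pool.Agent.TH639.SC.sum_primes
            (Pool.Agent.TH943.HJ.comp_ne hn ⟨P, p1, p2⟩) (fun S => lPart ℓ S.natDegree)
          refine h6.symm.trans ?_
          push_cast
          rfl
        rw [h5, h4]
        push_cast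
        exact sub_self _
      refine ⟨h3, fun hv => ?_⟩
      have h4 := h1 1 hv
      rw [h3] at h4
      norm_num at h4
  · intro n a hn hn2 hd ha N hN
    exact Pool.Agent.TH943.PT.dick_inert hn hn2 ha hd hN

end Pool.Agent.Results.MP_72e2e6_nt.InertCharacterTwists
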