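import Pool.Agent.TH943.KF.Main

/-!
The order of vanishing of the `L`-functions of abelian varieties over function fields in Galois
extensions of prime power degree.
-/

set_option autoImplicit false
set_option linter.all false
set_option maxHeartbeats 4000000

open Polynomial FF Module Pool.Agent.W343.BSD Pool.Agent.W313.Gr

namespace Pool.Agent.Results.MP_72e2e6_nt.KidaFormula

/-- `R = det (1 - Φ ^ f T)` if `P = det (1 - Φ T)`: the constant terms are `1`, and the complex zeros
of `R` (with multiplicity) are the `f`-th powers of the zeros of `P`. -/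
def IsFrobeniusPower (f : ℕ) (P R : ℤ[X]) : Prop :=
  P.coeff 0 = 1 ∧ R.coeff 0 = 1 ∧ R.aroots ℂ = (P.aroots ℂ).map (fun z => z ^ f)

/-- `L(T) = ∏ F v (T ^ deg v) ^ (-1)` is the polynomial `P`: `P(T) ∏ F v (T ^ deg v) = 1`. -/
def IsLFunction {k K : Type} [Field k] [Field K] [Algebra k K] (F : FF.Place k K → ℤ[X])
    (P : ℤ[X]) : Prop :=
  (P : PowerSeries ℤ) * eulerProd (fun v : FF.Place k K => S.deg v)
    (fun v => ((expand ℤ (S.deg v) (F v) : ℤ[X]) : PowerSeries ℤ)) = 1

/-- The place `w` of `K'` lies over the place `v` of `K`, with ramification index `e`. -/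
def LiesOver {k K k' K' : Type} [Field k] [Field K] [Algebra k K] [Field k'] [Field K']
    [Algebra k' K'] [Algebra K K'] (w : FF.Place k' K') (v : FF.Place k K) (e : ℕ) : Prop :=
  0 < e ∧ ∀ x : K, w.ord (algebraMap K K' x) = e * v.ord x

/-- The Euler factors `F' w` of the base change to `K'` of an object over `K` with Euler factors
`F v`, such as an abelian variety with semistable reduction at the places in `V`. If `w` lies over
`v` with ramification index `e` and residue degree `f` (`q_w = q_v ^ f`), then `F' w` is the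
Frobenius power of `F v` if `e = 1` or `v ∈ V`, and is divisible by it in any case. -/
structure IsBaseChange {k K k' K' : Type} [Field k] [Field K] [Algebra k K] [Field k'] [Field K']
    [Algebra k' K'] [Algebra K K'] (F : FF.Place k K → ℤ[X])
    (V : Set (FF.Place k K)) (F' : FF.Place k' K' → ℤ[X]) : Prop where
  coeff_zero : ∀ v, (F v).coeff 0 = 1
  coeff_zero' : ∀ w, (F' w).coeff 0 = 1
  exact : ∀ (w : FF.Place k' K') (v : FF.Place k K) (e f : ℕ), LiesOver w v e →
    Nat.card (S.Res w) = Nat.card (S.Res v) ^ f → e = 1 ∨ v ∈ V → IsFrobeniusPower f (F v) (F' w)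
  divides : ∀ (w : FF.Place k' K') (v : FF.Place k K) (e f : ℕ), LiesOver w v e →
    Nat.card (S.Res w) = Nat.card (S.Res v) ^ f → ∃ R : ℤ[X], IsFrobeniusPower f (F v) R ∧ R ∣ F' w

/-- The multiplicity of `1 / q` as a root of the reduction of `P` modulo the prime `l`. -/
noncomputable def centralMult (l q : ℕ) (P : ℤ[X]) : ℕ :=
  (P.map (Int.castRingHom (ZMod l))).rootMultiplicity (q : ZMod l)⁻¹

/-- The integer `q ^ n P(1 / q)`, where `n` is the degree of `P`. -/
noncomputable def centralValue (q : ℕ) (P : ℤ[X]) : ℤ := P.reverse.eval (q : ℤ)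

/-- The order of vanishing of `P` at `1 / q`. -/
noncomputable def order (q : ℕ) (P : ℤ[X]) : ℕ :=
  (P.map (Int.castRingHom ℚ)).rootMultiplicity (q : ℚ)⁻¹

/-- The degree of the reduction of `P` modulo `l`. If `P(0) = 1`, it is the number of the inverse
zeros of `P` which are `l`-adic units. -/
noncomputable def unitDegree (l : ℕ) (P : ℤ[X]) : ℕ :=
  (P.map (Int.castRingHom (ZMod l))).natDegree

/-- The functional equation: `P(T) = ± (q T) ^ n P(1 / (q ^ 2 T))`, where `n` is the degree of `P`. -/
def SelfDual (q : ℕ) (P : ℤ[X]) : Prop :=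
  ∃ ε : ℤ, (ε = 1 ∨ ε = -1) ∧
    P.reverse.comp (C ((q : ℤ) ^ 2) * X) = C (ε * (q : ℤ) ^ P.natDegree) * P

section defs

variable {k K : Type} [Field k] [Field K] [Algebra k K]

/-- The ramification index in the Galois extension `K'` of `K` of the place `v` of `K`. -/
noncomputable def ramIndex (k' K' : Type) [Field k'] [Field K'] [Algebra k' K'] [Algebra K K']
    (v : FF.Place k K) : ℕ :=
  sSup {e : ℕ | ∃ w : FF.Place k' K', LiesOver w v e}

/-- The sum over the places in `B` of `([K' : K] - [K' : K] / e_v) m_v`, where `e_v` is the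
ramification index of `v`. -/
noncomputable def ramSum (k' K' : Type) [Field k'] [Field K'] [Algebra k' K'] [Algebra K K']
    (m : FF.Place k K → ℕ) (B : Finset (FF.Place k K)) : ℕ :=
  ∑ v ∈ B, (finrank K K' - finrank K K' / ramIndex k' K' v) * m v

/-- All places in `B` which ramify in `K'` are in `V`. -/
def RamifiedIn (k' K' : Type) [Field k'] [Field K'] [Algebra k' K'] [Algebra K K']
    (B : Finset (FF.Place k K)) (V : Set (FF.Place k K)) : Prop :=
  ∀ v ∈ B, ramIndex k' K' v = 1 ∨ v ∈ V

/-- The conclusions for a prime `l` which is not the characteristic, with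
`ramSum = ∑ ([K' : K] - [K' : K] / e_v) centralMult (F v (T ^ deg v))`:
* `[k' : k] centralMult P' = [K' : K] centralMult P + ramSum` if all places in `B` which ramify are
  in `V`;
* `[k' : k] order P' ≤ [K' : K] centralMult P + ramSum` in all cases;
* if `l` divides neither `q ^ deg P * P(1 / q)` nor, for any place `v` in `B` which ramifies, the
  integer `q_v ^ (deg F v) * F v (1 / q_v)`, `q_v = q ^ deg v`, then `P'(1 / q') ≠ 0`. -/
def AtOtherPrime (l : ℕ) (k' K' : Type) [Field k'] [Field K'] [Algebra k' K'] [Algebra k k']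
    [Algebra K K'] (F : FF.Place k K → ℤ[X]) (V : Set (FF.Place k K)) (P P' : ℤ[X])
    (B : Finset (FF.Place k K)) : Prop :=
  (RamifiedIn k' K' B V →
    finrank k k' * centralMult l (Nat.card k') P' =
      finrank K K' * centralMult l (Nat.card k) P +
        ramSum k' K' (fun v => centralMult l (Nat.card k) (expand ℤ (S.deg v) (F v))) B) ∧
  finrank k k' * order (Nat.card k') P' ≤
    finrank K K' * centralMult l (Nat.card k) P +
      ramSum k' K' (fun v => centralMult l (Nat.card k) (expand ℤ (S.deg v) (F v))) B ∧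
  (¬ (l : ℤ) ∣ centralValue (Nat.card k) P →
    (∀ v ∈ B, ramIndex k' K' v ≠ 1 → ¬ (l : ℤ) ∣ centralValue (Nat.card (S.Res v)) (F v)) →
    order (Nat.card k') P' = 0)

/-- The conclusions for the characteristic `l`, with
`ramSum = ∑ ([K' : K] - [K' : K] / e_v) deg v unitDegree (F v)`:
* `[k' : k] unitDegree P' = [K' : K] unitDegree P + ramSum`;
* `order P' + 2 unitDegree P' ≤ deg P'` if `P'` satisfies the functional equation;
* if `P'` satisfies the functional equation, `K'` is unramified over `K`,
  `[k' : k] deg P' = [K' : K] deg P` and `deg P = 2 unitDegree P`, then `P'(1 / q') ≠ 0`. -/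
def AtCharacteristic (l : ℕ) (k' K' : Type) [Field k'] [Field K'] [Algebra k' K'] [Algebra k k']
    [Algebra K K'] (F : FF.Place k K → ℤ[X]) (P P' : ℤ[X]) (B : Finset (FF.Place k K)) : Prop :=
  finrank k k' * unitDegree l P' = finrank K K' * unitDegree l P +
    ramSum k' K' (fun v => S.deg v * unitDegree l (F v)) B ∧
  (SelfDual (Nat.card k') P' →
    order (Nat.card k') P' + 2 * unitDegree l P' ≤ P'.natDegree ∧
    (B = ∅ → finrank k k' * P'.natDegree = finrank K K' * P.natDegree →
      P.natDegree = 2 * unitDegree l P → order (Nat.card k') P' = 0))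

end defs

section proof

variable {k K k' K' : Type} [Field k] [Finite k] [Field K] [Algebra k K] [FF.IsFF k K]
  [Field k'] [Finite k'] [Field K'] [Algebra k' K'] [Algebra k k'] [Algebra k K'] [Algebra K K']
  [IsScalarTower k K K'] [IsScalarTower k k' K'] [FF.IsFF k K'] [FF.IsFF k' K']
  [FiniteDimensional K K'] [IsGalois K K']

theorem ramIndex_eq (v : FF.Place k K) (w : FF.Place k K') (n : ℕ) (h : Over w v n) :
    n = ramIndex k' K' v := by
  have h1 : {e : ℕ | ∃ w : FF.Place k' K', LiesOver w v e} = {n} := by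
    ext e
    simp only [Set.mem_setOf_eq, Set.mem_singleton_iff]
    constructor
    · rintro ⟨w', h'⟩
      have h2 : Over (downPlace (k := k) w') v e := h'
      obtain ⟨σ, hσ⟩ := exists_cj h h2
      rw [hσ] at h2
      exact over_e_unique h2 (over_cj h σ)
    · rintro rfl
      exact ⟨upPlace w, h⟩
  unfold ramIndex
  rw [h1, csSup_singleton]

theorem isL {k K : Type} [Field k] [Finite k] [Field K] [Algebra k K] [FF.IsFF k K]
    {F : Place k K → ℤ[X]} {P : ℤ[X]} (h : IsLFunction F P) :
    (P : PowerSeries ℤ) * TH943.KF.euler F = 1 := by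
  unfold IsLFunction at h
  simp only [S.deg_eq] at h
  exact h

/-- the comparison with the constants -/
theorem compare {l s : ℕ} [hl : Fact l.Prime] {μ : Polynomial (ZMod l) → ℕ}
    (hμ : ∀ p q, p ≠ 0 → q ≠ 0 → μ (p * q) = μ p + μ q)
    (hμ2 : ∀ (i : ℕ) (p : (ZMod l)[X]), μ (expand (ZMod l) (l ^ i) p) = l ^ i * μ p)
    (hconst : ∀ a : K, IsAlgebraic k a → a ∈ (algebraMap k K).range)
    (hn : finrank K K' = l ^ s) {F : Place k K → ℤ[X]} {V : Set (Place k K)}
    {F' : Place k' K' → ℤ[X]} (hF : IsBaseChange F V F')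
    (B : Finset (Place k K)) (hB : ∀ v, v ∉ B → ramIndex k' K' v = 1)
    {P P' : ℤ[X]} (hP : IsLFunction F P) (hP' : IsLFunction F' P') :
    finrank k k' * μ (P'.map (Int.castRingHom (ZMod l))) ≤
      finrank K K' * μ (P.map (Int.castRingHom (ZMod l))) +
        ramSum k' K' (fun v => μ ((expand ℤ v.deg (F v)).map (Int.castRingHom (ZMod l)))) B ∧
    ((∀ v ∈ B, ramIndex k' K' v = 1 ∨ v ∈ V) →
      finrank k k' * μ (P'.map (Int.castRingHom (ZMod l))) =
      finrank K K' * μ (P.map (Int.castRingHom (ZMod l))) +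
        ramSum k' K' (fun v => μ ((expand ℤ v.deg (F v)).map (Int.castRingHom (ZMod l)))) B) := by
  classical
  have hD := fun v : Place k K => exists_galoisFiber (L := K') v
  choose T e f D using hD
  have hee : ∀ v, e v = ramIndex k' K' v := fun v => by
    obtain ⟨w, hw⟩ := (D v).nonempty
    exact ramIndex_eq v w _ ((D v).isOver w hw)
  have : FiniteDimensional k k' := Module.Finite.of_finite
  have hr : finrank k k' ≠ 0 := finrank_pos.ne'
  obtain ⟨i, hi⟩ := constants_pow (L := K') hconst hn hr
  set G : Place k K' → ℤ[X] := fun w => F' (upPlace w) with hG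
  have hG0 : ∀ w, (G w).coeff 0 = 1 := fun w => hF.coeff_zero' _
  have hdeg : ∀ (v : Place k K), ∀ w ∈ T v,
      Nat.card (S.Res (upPlace (k' := k') w)) = Nat.card (S.Res v) ^ f v := by
    intro v w hw
    have h1 : w.deg = finrank k k' * (upPlace (k' := k') w).deg :=
      deg_down (k := k) (upPlace (k' := k') w)
    have h2 : Nat.card (S.Res (upPlace (k' := k') w)) =
        Nat.card k' ^ (upPlace (k' := k') w).deg :=
      Module.natCard_eq_pow_finrank (K := k') (V := (upPlace (k' := k') w).RF)
    have h3 : Nat.card (S.Res v) = Nat.card k ^ v.deg :=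
      Module.natCard_eq_pow_finrank (K := k) (V := v.RF)
    have h4 : Nat.card k' = Nat.card k ^ finrank k k' :=
      Module.natCard_eq_pow_finrank (K := k) (V := k')
    rw [h2, h3, h4, ← pow_mul, ← pow_mul, ← h1, (D v).deg w hw]
  have hlie : ∀ (v : Place k K), ∀ w ∈ T v, LiesOver (upPlace (k' := k') w) v (e v) :=
    fun v w hw => (D v).isOver w hw
  have hpow : ∀ (v : Place k K), ∀ w ∈ T v, ∀ R : ℤ[X], IsFrobeniusPower (f v) (F v) R →
      (expand ℤ w.deg R).map (Int.castRingHom (ZMod l)) = TH943.KF.lf l F v ^ f v := by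
    intro v w hw R hR
    obtain ⟨j, hj⟩ := fiber_pow (D v) hn
    have h1 : TH943.KF.IsPower (l ^ j) (F v) R := by rw [← hj]; exact hR
    have h2 := TH943.KF.expand_mod h1
    rw [← hj] at h2
    unfold TH943.KF.lf
    rw [(D v).deg w hw, Polynomial.expand_mul, map_expand, h2, map_pow, map_expand]
  have hQ : ((expand ℤ (finrank k k') P' : ℤ[X]) : PowerSeries ℤ) * TH943.KF.euler G = 1 := by
    rw [TH943.KF.euler_rel hr hF.coeff_zero', coe_expand _ hr, ← map_mul]
    rw [isL hP', map_one]
  have hmain := TH943.KF.kida_mu hμ hn hF.coeff_zero hG0 D B (fun v hv => by rw [hee, hB v hv])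
    (fun v hv w hw => hpow v w hw _ (hF.exact _ v (e v) (f v) (hlie v w hw) (hdeg v w hw)
      (Or.inl (by rw [hee, hB v hv]))))
    (fun v hv w hw => by
      obtain ⟨R, hR1, hR2⟩ := hF.divides _ v (e v) (f v) (hlie v w hw) (hdeg v w hw)
      rw [← hpow v w hw R hR1]
      obtain ⟨C, hC⟩ := hR2
      refine ⟨(expand ℤ w.deg C).map (Int.castRingHom (ZMod l)), ?_⟩
      unfold TH943.KF.lf
      rw [← Polynomial.map_mul, ← map_mul, ← hC])
    (isL hP) hQ
  rw [map_expand, hi, hμ2] at hmain
  have hsum : ∑ v ∈ B, (l ^ s - l ^ s / e v) * μ (TH943.KF.lf l F v) =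
      ramSum k' K' (fun v => μ ((expand ℤ v.deg (F v)).map (Int.castRingHom (ZMod l)))) B := by
    unfold ramSum
    rw [hn]
    refine Finset.sum_congr rfl fun v _ => ?_
    rw [hee]
    rfl
  rw [hi, hn, ← hsum]
  refine ⟨hmain.1, fun hS => hmain.2 fun v hv w hw => ?_⟩
  refine hpow v w hw _ (hF.exact _ v (e v) (f v) (hlie v w hw) (hdeg v w hw) ?_)
  rcases hS v hv with h | h
  · exact Or.inl (by rw [hee, h])
  · exact Or.inr h

/-- the order of vanishing and the multiplicity modulo `l` -/
theorem order_le {l q : ℕ} [hl : Fact l.Prime] (hq : (q : ZMod l) ≠ 0) (hq0 : q ≠ 0) {P : ℤ[X]}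
    (h0 : P.coeff 0 = 1) : order q P ≤ centralMult l q P := by
  obtain ⟨G, hG⟩ := TH943.KD.dvd_of_mult hq0 (G := P) rfl
  have hP0 : P.map (Int.castRingHom (ZMod l)) ≠ 0 := by
    intro h
    have h1 := congrArg (fun p => coeff p 0) h
    beta_reduce at h1
    rw [coeff_map, h0, map_one, coeff_zero] at h1
    exact one_ne_zero h1
  unfold centralMult
  rw [le_rootMultiplicity_iff hP0]
  have h2 : (P.map (Int.castRingHom (ZMod l))) =
      (1 - C (q : ZMod l) * X) ^ order q P * G.map (Int.castRingHom (ZMod l)) := by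
    conv_lhs => rw [hG]
    rw [Polynomial.map_mul, Polynomial.map_pow, Polynomial.map_sub, Polynomial.map_one,
      Polynomial.map_mul, Polynomial.map_C, Polynomial.map_X]
    have h3 : (Int.castRingHom (ZMod l)) (q : ℤ) = (q : ZMod l) := by simp
    rw [h3]
    rfl
  rw [h2]
  apply Dvd.dvd.mul_right
  apply pow_dvd_pow_of_dvd
  refine ⟨C (-(q : ZMod l)), ?_⟩
  rw [sub_mul, ← C_mul, mul_neg, inv_mul_cancel₀ hq, C_neg, C_neg, C_1]
  ring

theorem natDegree_lin {q : ℕ} (hq : q ≠ 0) : (1 - C (q : ℤ) * X : ℤ[X]).natDegree = 1 := by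
  have h1 : (1 - C (q : ℤ) * X : ℤ[X]) = C (-(q : ℤ)) * X + C 1 := by
    rw [C_neg, C_1]
    ring
  rw [h1]
  exact natDegree_linear (by simpa using hq)

theorem reverse_lin {q : ℕ} (hq : q ≠ 0) : (1 - C (q : ℤ) * X : ℤ[X]).reverse = X - C (q : ℤ) := by
  have h1 : (1 - C (q : ℤ) * X : ℤ[X]) = 1 + C (-(q : ℤ)) * X ^ 1 := by
    rw [C_neg, pow_one]
    ring
  ext n
  rw [coeff_reverse, natDegree_lin hq]
  rcases n with _ | _ | n
  · rw [revAt_le (by norm_num)]
    simp [coeff_one, coeff_X]
  · rw [revAt_le (by norm_num)]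
    simp [coeff_one, coeff_X, coeff_C]
  · rw [revAt_eq_self_of_lt (by omega)]
    simp [coeff_one, coeff_X, coeff_C]

/-- unit roots and the order of vanishing -/
theorem order_unit {l q : ℕ} [hl : Fact l.Prime] (hq : (q : ZMod l) = 0) (hq0 : q ≠ 0) {P : ℤ[X]}
    (h0 : P.coeff 0 = 1) (hd : SelfDual q P) : order q P + 2 * unitDegree l P ≤ P.natDegree := by
  obtain ⟨G, hG⟩ := TH943.KD.dvd_of_mult hq0 (G := P) rfl
  set r := order q P with hr
  have hG' : P = (1 - C (q : ℤ) * X) ^ r * G := hG
  have hP : P ≠ 0 := by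
    rintro rfl
    simp at h0
  have hG0 : G ≠ 0 := by
    rintro rfl
    rw [mul_zero] at hG'
    exact hP hG'
  have hlin : (1 - C (q : ℤ) * X : ℤ[X]) ≠ 0 := by
    intro h
    have h1 := congrArg (eval 0) h
    simp at h1
  have hdeg : P.natDegree = r + G.natDegree := by
    rw [hG', natDegree_mul (pow_ne_zero _ hlin) hG0, natDegree_pow, natDegree_lin hq0, mul_one]
  have hred : P.map (Int.castRingHom (ZMod l)) = G.map (Int.castRingHom (ZMod l)) := by
    conv_lhs => rw [hG']
    rw [Polynomial.map_mul, Polynomial.map_pow, Polynomial.map_sub, Polynomial.map_one,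
      Polynomial.map_mul, Polynomial.map_C, Polynomial.map_X]
    have h3 : (Int.castRingHom (ZMod l)) (q : ℤ) = 0 := by
      rw [← hq]
      simp
    rw [h3, C_0, zero_mul, sub_zero, one_pow, one_mul]
  -- the functional equation of G
  obtain ⟨ε, hε, hfe⟩ := hd
  have hqz : (q : ℤ) ≠ 0 := by exact_mod_cast hq0
  have hfeG : C ((-1 : ℤ) ^ r) * G.reverse.comp (C ((q : ℤ) ^ 2) * X) =
      C (ε * (q : ℤ) ^ G.natDegree) * G := by
    have h1 : P.reverse = (X - C (q : ℤ)) ^ r * G.reverse := by
      rw [hG', reverse_mul_of_domain]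
      congr 1
      clear_value r
      clear hG' hG hr hdeg hred hfe
      induction r with
      | zero => rw [pow_zero, pow_zero, ← C_1, reverse_C]
      | succ n ih => rw [pow_succ, reverse_mul_of_domain, ih, reverse_lin hq0, pow_succ]
    rw [h1, mul_comp, pow_comp, sub_comp, X_comp, C_comp, hdeg] at hfe
    have h2 : (C ((q : ℤ) ^ 2) * X - C (q : ℤ) : ℤ[X]) =
        C (-(q : ℤ)) * (1 - C (q : ℤ) * X) := by
      rw [C_neg, pow_two, C_mul]
      ring
    rw [h2, mul_pow] at hfe
    have h3 : (C (ε * (q : ℤ) ^ (r + G.natDegree)) * P : ℤ[X]) =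
        C ((q : ℤ) ^ r) * (1 - C (q : ℤ) * X) ^ r * (C (ε * (q : ℤ) ^ G.natDegree) * G) := by
      conv_lhs => rw [hG']
      rw [pow_add, show ε * ((q : ℤ) ^ r * (q : ℤ) ^ G.natDegree) =
        (q : ℤ) ^ r * (ε * (q : ℤ) ^ G.natDegree) by ring, C_mul]
      ring
    have h4 : (C (-(q : ℤ)) : ℤ[X]) ^ r = C ((q : ℤ) ^ r) * C ((-1 : ℤ) ^ r) := by
      rw [← C_pow, ← C_mul, neg_pow, mul_comm]
    rw [h3, h4] at hfe
    have h5 : (C ((q : ℤ) ^ r) * (1 - C (q : ℤ) * X) ^ r : ℤ[X]) ≠ 0 :=
      mul_ne_zero (C_ne_zero.2 (pow_ne_zero _ hqz)) (pow_ne_zero _ hlin)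
    apply mul_left_cancel₀ h5
    rw [← hfe]
    ring
  -- the coefficients
  by_contra hcon
  push Not at hcon
  set h := unitDegree l P with hh
  have hh' : h = (G.map (Int.castRingHom (ZMod l))).natDegree := by
    rw [hh, unitDegree, hred]
  have hGm : G.map (Int.castRingHom (ZMod l)) ≠ 0 := by
    rw [← hred]
    intro h'
    have h1 := congrArg (fun p => coeff p 0) h'
    beta_reduce at h1
    rw [coeff_map, h0, map_one, coeff_zero] at h1
    exact one_ne_zero h1
  have hunit : ((G.coeff h : ℤ) : ZMod l) ≠ 0 := by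
    have h1 : (G.map (Int.castRingHom (ZMod l))).coeff h ≠ 0 := by
      rw [hh']
      exact leadingCoeff_ne_zero.2 hGm
    rw [coeff_map] at h1
    exact h1
  have hle : h ≤ G.natDegree := by
    rw [hh']
    exact natDegree_map_le
  have hbig : G.natDegree < 2 * h := by omega
  set m := G.natDegree with hm
  set i := m - h with hi
  have h1 := congrArg (fun p => coeff p i) hfeG
  beta_reduce at h1
  have hcomp : (G.reverse.comp (C ((q : ℤ) ^ 2) * X)).coeff i =
      ((q : ℤ) ^ 2) ^ i * G.coeff h := by
    rw [comp_C_mul_X_coeff, coeff_reverse, revAt_le (by omega), ← hm,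
      show m - i = h by omega]
    ring
  rw [coeff_C_mul, coeff_C_mul, hcomp] at h1
  have h2 : (q : ℤ) ^ m = (q : ℤ) ^ (2 * i) * (q : ℤ) ^ (m - 2 * i) := by
    rw [← pow_add]
    congr 1
    omega
  have h3 : (q : ℤ) ^ (2 * i) ≠ 0 := pow_ne_zero _ hqz
  have h4 : (-1 : ℤ) ^ r * G.coeff h = ε * (q : ℤ) ^ (m - 2 * i) * G.coeff i := by
    apply mul_left_cancel₀ h3
    rw [← pow_mul, h2] at h1
    linear_combination h1
  have h5 := congrArg (fun z : ℤ => (z : ZMod l)) h4
  beta_reduce at h5
  push_cast at h5
  rw [hq, zero_pow (by omega), mul_zero, zero_mul] at h5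
  rcases mul_eq_zero.1 h5 with h6 | h6
  · exact (pow_ne_zero _ (neg_ne_zero.2 one_ne_zero)) h6
  · exact hunit h6

end proof

/-- Let `K` and `K'`, a Galois extension of `K` of degree a power of the prime `l`, be function
fields of curves over the finite fields `k` and `k'` with `q` and `q'` elements. Let `F v`, `F' w` be
the Euler factors of an abelian variety `A` over `K` and of its base change to `K'`, and `V` the set
of places of semistable reduction, or more generally systems of polynomials with `IsBaseChange`. Let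
`L(T, A/K) = P(T)` and `L(T, A/K') = P'(T)` be polynomials, and `B` a finite set of places of `K`
outside which `K'` is unramified. Then `AtOtherPrime` holds if `l` is not the characteristic, and
`AtCharacteristic` holds if `l` is the characteristic and all places in `B` which ramify are in
`V`. -/
theorem result (k K k' K' : Type) [Field k] [Finite k] [Field K] [Algebra k K] [Field k']
    [Finite k'] [Field K'] [Algebra k' K'] [Algebra k k'] [Algebra k K'] [Algebra K K']
    [IsScalarTower k K K'] [IsScalarTower k k' K'] [FiniteDimensional K K'] [IsGalois K K']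
    (hK : IsCurveField k K) (hK' : IsCurveField k' K') (l s : ℕ)
    (hl : l.Prime) (hdeg : finrank K K' = l ^ s) (F : FF.Place k K → ℤ[X])
    (V : Set (FF.Place k K)) (F' : FF.Place k' K' → ℤ[X]) (hF : IsBaseChange F V F')
    (P P' : ℤ[X]) (hP : IsLFunction F P) (hP' : IsLFunction F' P')
    (B : Finset (FF.Place k K)) (hB : ∀ v, v ∉ B → ramIndex k' K' v = 1) :
    ((l : k) ≠ 0 → AtOtherPrime l k' K' F V P P' B) ∧
    ((l : k) = 0 → RamifiedIn k' K' B V → AtCharacteristic l k' K' F P P' B) := by
  classical
  have hFF : FF.IsFF k K := ⟨hK.essFiniteType, hK.trdeg_eq_one⟩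
  have hFF' : FF.IsFF k' K' := ⟨hK'.essFiniteType, hK'.trdeg_eq_one⟩
  have hFF'' : FF.IsFF k K' := isFF_of_finite (K := K)
  have := Fact.mk hl
  have : FiniteDimensional k k' := Module.Finite.of_finite
  have hr : finrank k k' ≠ 0 := finrank_pos.ne'
  have hP0' : P'.coeff 0 = 1 := by
    have h1 := congrArg (PowerSeries.coeff 0) (isL hP')
    unfold TH943.KF.euler TH943.KF.fac at h1
    rw [PowerSeries.coeff_zero_eq_constantCoeff, map_mul,
      ← PowerSeries.coeff_zero_eq_constantCoeff, Polynomial.coeff_coe] at h1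
    have h2 : PowerSeries.coeff 0 (eulerProd (fun v : FF.Place k' K' => v.deg)
        (fun v => ((expand ℤ v.deg (F' v) : ℤ[X]) : PowerSeries ℤ))) = 1 := by
      rw [eulerProd, PowerSeries.coeff_mk]
      have h3 : (∏ᶠ (v : FF.Place k' K') (_ : v.deg ≤ 0),
          ((expand ℤ v.deg (F' v) : ℤ[X]) : PowerSeries ℤ)) = 1 := by
        apply finprod_eq_one_of_forall_eq_one
        intro v
        have hv : ¬ (v.deg ≤ 0) := by
          have := deg_pos' v
          omega
        have : IsEmpty (v.deg ≤ 0) := ⟨hv⟩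
        exact finprod_of_isEmpty _
      rw [h3]
      simp
    rw [h2, mul_one] at h1
    rw [h1]
    simp
  have hqk' : Nat.card k' ≠ 0 := (Nat.card_pos (α := k')).ne'
  unfold AtOtherPrime AtCharacteristic RamifiedIn
  simp only [S.deg_eq]
  constructor
  · intro hlk
    have hq0 := card_ne_zero_mod (k := k) hlk
    have hlk' : (l : k') ≠ 0 := by
      intro h
      apply hlk
      apply (algebraMap k k').injective
      rw [map_natCast, map_zero, h]
    have hq0' := card_ne_zero_mod (k := k') hlk'
    obtain ⟨i, hi⟩ := constants_pow (L := K') hK.algClosed hdeg hr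
    have hqq : ((Nat.card k' : ℕ) : ZMod l) = ((Nat.card k : ℕ) : ZMod l) := by
      rw [TH943.KD.card_pow (k := k), hi, ZMod.pow_card_pow]
    set x : ZMod l := ((Nat.card k : ℕ) : ZMod l)⁻¹ with hx
    have hμ : ∀ p q : (ZMod l)[X], p ≠ 0 → q ≠ 0 →
        (p * q).rootMultiplicity x = p.rootMultiplicity x + q.rootMultiplicity x :=
      fun p q hp hq => rm_mul x hp hq
    have hμ2 : ∀ (i : ℕ) (p : (ZMod l)[X]), (expand (ZMod l) (l ^ i) p).rootMultiplicity x =
        l ^ i * p.rootMultiplicity x := by
      intro i p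
      have hex : ExpChar (ZMod l) l := inferInstance
      rw [Polynomial.rootMultiplicity_expand_pow, ZMod.pow_card_pow]
    obtain ⟨hle, heq⟩ := compare (μ := fun p => p.rootMultiplicity x) hμ hμ2 hK.algClosed hdeg hF
      B hB hP hP'
    have e1 : centralMult l (Nat.card k') P' =
        (P'.map (Int.castRingHom (ZMod l))).rootMultiplicity x := by
      rw [centralMult, hqq]
    have e2 : centralMult l (Nat.card k) P =
        (P.map (Int.castRingHom (ZMod l))).rootMultiplicity x := rfl
    have hord : finrank k k' * order (Nat.card k') P' ≤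
          finrank K K' * centralMult l (Nat.card k) P +
            ramSum k' K' (fun v => centralMult l (Nat.card k) (expand ℤ v.deg (F v))) B := by
      refine (Nat.mul_le_mul_left _ (order_le hq0' hqk' hP0')).trans ?_
      rw [e1, e2]
      exact hle
    refine ⟨?_, hord, ?_⟩
    · intro hS
      rw [e1, e2]
      exact heq hS
    · intro hv hloc
      have h1 : centralMult l (Nat.card k) P = 0 := by
        unfold centralMult
        apply TH943.KD.rm_zero_of_eval
        have h2 := TH943.KD.eval_rev (q := (Nat.card k : ℤ)) (by exact_mod_cast hq0) hv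
        exact_mod_cast h2
      have h2 : ramSum k' K' (fun v => centralMult l (Nat.card k) (expand ℤ v.deg (F v))) B = 0 := by
        unfold ramSum
        apply Finset.sum_eq_zero
        intro v hvB
        by_cases h : ramIndex k' K' v = 1
        · rw [h, Nat.div_one, Nat.sub_self, zero_mul]
        · have h3 := hloc v hvB h
          have hres : Nat.card (S.Res v) = Nat.card k ^ v.deg :=
            Module.natCard_eq_pow_finrank (K := k) (V := v.RF)
          rw [hres] at h3
          have h4 : (((Nat.card k ^ v.deg : ℕ) : ℤ) : ZMod l) ≠ 0 := by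
            push_cast
            exact pow_ne_zero _ hq0
          have h5 := TH943.KD.eval_rev h4 h3
          have h6 : centralMult l (Nat.card k) (expand ℤ v.deg (F v)) = 0 := by
            unfold centralMult
            apply TH943.KD.rm_zero_of_eval
            rw [map_expand, expand_eval, inv_pow]
            push_cast at h5
            exact h5
          beta_reduce
          rw [h6, mul_zero]
      rw [h1, h2, mul_zero, zero_add, Nat.le_zero, mul_eq_zero] at hord
      exact hord.resolve_left hr
  · intro hlk hS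
    have hlp : (((Nat.card k' : ℕ)) : ZMod l) = 0 := by
      have hlk' : (l : k') = 0 := by
        have h1 := congrArg (algebraMap k k') hlk
        rwa [map_natCast, map_zero] at h1
      have : Fintype k' := Fintype.ofFinite k'
      have hchar : CharP k' l := by
        have hdvd : ringChar k' ∣ l := ringChar.dvd hlk'
        have hne : ringChar k' ≠ 1 := CharP.ringChar_ne_one
        have heq : ringChar k' = l := ((Nat.dvd_prime hl).1 hdvd).resolve_left hne
        rw [← heq]
        exact ringChar.charP k'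
      obtain ⟨n, hpp, hn⟩ := FiniteField.card k' l
      rw [Nat.card_eq_fintype_card, hn, Nat.cast_pow, CharP.cast_eq_zero, zero_pow n.pos.ne']
    have hμ : ∀ p q : (ZMod l)[X], p ≠ 0 → q ≠ 0 →
        (p * q).natDegree = p.natDegree + q.natDegree := fun p q hp hq => natDegree_mul hp hq
    have hμ2 : ∀ (i : ℕ) (p : (ZMod l)[X]), (expand (ZMod l) (l ^ i) p).natDegree =
        l ^ i * p.natDegree := by
      intro i p
      rw [natDegree_expand, mul_comm]
    obtain ⟨-, heq⟩ := compare (μ := fun p => p.natDegree) hμ hμ2 hK.algClosed hdeg hF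
      B hB hP hP'
    have hmain : finrank k k' * unitDegree l P' = finrank K K' * unitDegree l P +
        ramSum k' K' (fun v => v.deg * unitDegree l (F v)) B := by
      have h1 := heq hS
      have h2 : (fun v : FF.Place k K =>
          ((expand ℤ v.deg (F v)).map (Int.castRingHom (ZMod l))).natDegree) =
          fun v => v.deg * unitDegree l (F v) := by
        funext v
        rw [map_expand, natDegree_expand, mul_comm]
        rfl
      simp only [h2] at h1
      exact h1
    refine ⟨hmain, fun hd => ?_⟩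
    have hu := order_unit hlp hqk' hP0' hd
    refine ⟨hu, ?_⟩
    intro hB0 hdeg' hP2
    rw [hB0] at hmain
    have h1 : ramSum k' K' (fun v : FF.Place k K => v.deg * unitDegree l (F v)) ∅ = 0 := by
      simp [ramSum]
    rw [h1, add_zero] at hmain
    have h2 : finrank k k' * P'.natDegree = finrank k k' * (2 * unitDegree l P') := by
      rw [hdeg', hP2]
      calc finrank K K' * (2 * unitDegree l P) = 2 * (finrank K K' * unitDegree l P) := by ring
        _ = 2 * (finrank k k' * unitDegree l P') := by rw [hmain]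
        _ = finrank k k' * (2 * unitDegree l P') := by ring
    have h3 := Nat.eq_of_mul_eq_mul_left (Nat.pos_of_ne_zero hr) h2
    omega

end Pool.Agent.Results.MP_72e2e6_nt.KidaFormula
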