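import Pool.Agent.TH958.T9.Fin

/-!
# Rank equals order of vanishing, of unbounded size, for pullbacks of Legendre's curve over function
fields of curves of every genus

The elliptic curves `y ^ 2 = x (x - 1) (x - h ^ d)` for all divisors `d` of `p ^ ν + 1`.
-/

set_option autoImplicit false
set_option linter.all false
set_option maxHeartbeats 4000000

open Polynomial Pool.Agent.W343.BSD Pool.Agent.W309.RK

namespace Pool.Agent.Results.MP_72e2e6_nt.LegendreAllGenera

/-- The conditions on the function `h`: `h` has exactly one zero and exactly one pole, both places have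
odd degree, and each function `h - ζ` with `ζ ^ d = 1` has exactly one zero, of odd order and at a
place of odd degree. -/
structure Conditions (k : Type) {K : Type} [Field k] [Field K] [Algebra k K] (d : ℕ) (h : K) :
    Prop where
  zero : ∃ v : FF.Place k K, 0 < v.ord h ∧ Odd (S.deg v) ∧ ∀ w : FF.Place k K, 0 < w.ord h → w = v
  pole : ∃ v : FF.Place k K, v.ord h < 0 ∧ Odd (S.deg v) ∧ ∀ w : FF.Place k K, w.ord h < 0 → w = v
  shift : ∀ ζ : k, ζ ^ d = 1 → ∃ v : FF.Place k K, 0 < v.ord (h - algebraMap k K ζ) ∧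
    Odd (v.ord (h - algebraMap k K ζ)) ∧ Odd (S.deg v) ∧
    ∀ w : FF.Place k K, 0 < w.ord (h - algebraMap k K ζ) → w = v

/-- The first coefficient of `E_h`. -/
def coeffA {K : Type} [Field K] (d : ℕ) (h : K) : K := -(1 - h ^ d + (h ^ d) ^ 2) / 3

/-- The second coefficient of `E_h`. -/
def coeffB {K : Type} [Field K] (d : ℕ) (h : K) : K :=
  (1 + h ^ d) * (2 - h ^ d) * (2 * h ^ d - 1) / 27

/-- The curve `E_h : y ^ 2 = x (x - 1) (x - h ^ d)`, in short form `y ^ 2 = x ^ 3 + a x + b` (with `x`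
replaced by `x + (1 + h ^ d) / 3`). -/
def curve {K : Type} [Field K] (d : ℕ) (h : K) : WeierstrassCurve K :=
  ⟨0, 0, 0, coeffA d h, coeffB d h⟩

open Classical in
/-- `E_h` is an elliptic curve whose `j`-invariant `6912 a ^ 3 / (4 a ^ 3 + 27 b ^ 2)` is not in `k`, with
`ρ` linearly independent points over `K`; its `L`-function vanishes at `T = 1 / |k|` to order at most
`ρ`: if it is `(1 - |k| T) ^ M G(T)` with `G` in `ℤ[T]`, then `M ≤ ρ`. If it is a polynomial with order
of vanishing `r` and the rank is at most `r`, then the rank and `r` are equal to `ρ`. -/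
def RankAndOrder (k : Type) {K : Type} [Field k] [Finite k] [Field K] [Algebra k K] (ρ d : ℕ)
    (h : K) : Prop :=
  4 * coeffA d h ^ 3 + 27 * coeffB d h ^ 2 ≠ 0 ∧
  (∀ c : k, 6912 * coeffA d h ^ 3 / (4 * coeffA d h ^ 3 + 27 * coeffB d h ^ 2) ≠
    algebraMap k K c) ∧
  (∃ P : Fin ρ → (curve d h).toAffine.Point, LinearIndependent ℤ P) ∧
  (∀ M : ℕ, S.VanishesTo k (coeffA d h) (coeffB d h) M → M ≤ ρ) ∧
  ∀ r : ℕ, Pool.Agent.W313.Gr.HasOrder k (coeffA d h) (coeffB d h) r →
    Module.rank ℤ (curve d h).toAffine.Point ≤ r →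
      r = ρ ∧ Module.rank ℤ (curve d h).toAffine.Point = ρ

/-- (1) Let `k` be a finite field with `p ^ (2 ν n)` elements, `p ≥ 5` a prime, `ν ≥ 1`, `d` a divisor of
`p ^ ν + 1`, and `ρ = d - 2` if `d` is even and `ρ = d - 1` if `d` is odd; let `K` be the function field of
a curve over `k` with constant field `k` and odd class number. Let `h` in `K` satisfy the conditions.
Then the elliptic curve `y ^ 2 = x (x - 1) (x - h ^ d)` has at least `ρ` independent points over `K`, and
its `L`-function vanishes at `T = 1 / |k|` to order at most `ρ`; if the rank is at most the order, both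
are `ρ`.

(2) There are such `k`, for every `p ≥ 5` and `ν ≥ 1`, such that for `K = k(t)` the conditions on `K`
hold and those on `h` hold, for all divisors `d` of `p ^ ν + 1`, for polynomials `h` of arbitrarily
large degree. -/
theorem result :
    (∀ (p ν n d : ℕ), p.Prime → 5 ≤ p → 1 ≤ ν → d ∣ p ^ ν + 1 →
      ∀ (k K : Type) [Field k] [Finite k] [Field K] [Algebra k K],
      Nat.card k = p ^ (2 * ν * n) → IsCurveField k K →
      Odd (S.classNumber k K) → ∀ h : K, Conditions k d h →
        RankAndOrder k (if Even d then d - 2 else d - 1) d h) ∧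
    ∀ (p ν : ℕ), p.Prime → 5 ≤ p → 1 ≤ ν → ∃ (k : Type) (_ : Field k) (_ : Finite k) (n : ℕ),
      Nat.card k = p ^ (2 * ν * n) ∧ IsCurveField k (RatFunc k) ∧
      Odd (S.classNumber k (RatFunc k)) ∧ ∀ N : ℕ, ∃ h : k[X], N ≤ h.natDegree ∧
        ∀ d : ℕ, d ∣ p ^ ν + 1 → Conditions k d (algebraMap k[X] (RatFunc k) h) := by
  refine ⟨?_, ?_⟩
  · intro p ν n d hp hp5 hν hd k K _ _ _ _ hcard hK hcl h hA
    haveI : FF.IsFF k K := ⟨hK.essFiniteType, hK.trdeg_eq_one⟩
    haveI : CharP k p := charP_of_card hp hcard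
    have h6k : (6 : k) ≠ 0 := Pool.Agent.TH958.T4.six_ne hp hp5
    have h3k : (3 : k) ≠ 0 := fun e => h6k (by linear_combination 2 * e)
    have h3K : (3 : K) ≠ 0 := by
      have : algebraMap k K 3 ≠ 0 := by simpa using h3k
      rwa [map_ofNat] at this
    have h27K : (27 : K) ≠ 0 := by
      have : (27 : K) = 3 ^ 3 := by norm_num
      rw [this]
      exact pow_ne_zero 3 h3K
    have ha : aOf 1 (h ^ d) = coeffA d h := by
      unfold aOf coeffA
      field_simp
      ring
    have hb : bOf 1 (h ^ d) = coeffB d h := by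
      unfold bOf coeffB
      field_simp
      ring
    obtain ⟨⟨h1, h2⟩, h3, h4, h5⟩ := Pool.Agent.TH958.T9.main hp hp5 hν hd hcard
      hK.algClosed hcl (h := h) ⟨hA.zero, hA.shift, hA.pole⟩
    rw [ha, hb] at h1 h2 h3 h4 h5
    exact ⟨h1, fun c hc => h2 c ((div_eq_iff h1).1 hc), h3, h4, h5⟩
  · intro p ν hp hp5 hν
    obtain ⟨k, i1, i2, n, h1, h2, h3, h4⟩ := Pool.Agent.TH958.T8.exist hp hp5 hν
    refine ⟨k, i1, i2, n, h1, h2, h3, fun N => ?_⟩
    obtain ⟨h, h5, h6⟩ := h4 N
    exact ⟨h, h5, fun d hd => ⟨(h6 d hd).zero, (h6 d hd).pole, (h6 d hd).shift⟩⟩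

end Pool.Agent.Results.MP_72e2e6_nt.LegendreAllGenera
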