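import Mathlib
import Pool.Agent.TH115.SK.Defs
import Pool.Agent.TH115.SD.Crit2
import Pool.Agent.TH115.SK.CntK

/-!
# The 2-primary part of the Tate-Shafarevich group for elliptic curves over `k(t)` whose rank
attains the bound of the 2-descent

Let `k` be a field of characteristic different from 2 (for example a finite field), `K = k(t)`, and

`E : y² = x (x - a) (x - b)`

with coprime polynomials `a ≠ b`, not zero. Suppose that the maximum `N` of the degrees of `a` and
`b` is odd (or that two of `a`, `b`, `a - b` have an irreducible factor of odd degree and odd
multiplicity).

Let `Triples a b` be the set of the triples `(A, B, D)` of monic squarefree divisors of `a`, `b`,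
`a - b` over `k` (with a condition on the parities of the degrees if `N` is even), and let
`Triples2 a b` be the subset of the triples for which there are constants `r`, `s` in `k` such that
`(r A B, s A D)` satisfies the conditions `SecondCond`: at each irreducible factor `π` of odd
multiplicity of `a`, `b` or `a - b` one explicit element is a square modulo `π`, and if `N` is odd, for
one of the points of order two two leading coefficients are squares.

Theorem. Suppose that `Triples2 a b` has at most `2 ^ (d + 2)` elements, and that `E(K)` contains `d`
points which are independent modulo `2 E(K) + E(K)[2]`. Then the 2-primary part of the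
Tate-Shafarevich group of `E` over `K` (over all closed points of the projective line over `k`) is zero;
in particular its 2-adic Tate module is zero. If `k` is finite, the Tate-Shafarevich group is finite
(Tate, Milne).
-/

namespace Pool.Agent.Results.MP_72e2e6_nt.SelmerTwoDescent

open Polynomial Pool.Agent.TH115.GD
open scoped Classical

theorem result {k K : Type} [Field k] [Field K] [Algebra k[X] K] [IsFractionRing k[X] K]
    (h2 : (2 : k) ≠ 0) {a b : k[X]} (ha : a ≠ 0) (hb : b ≠ 0) (hab : a ≠ b) (hco : IsCoprime a b)
    (hodd : Odd (max a.natDegree b.natDegree) ∨ TwoOddFactors a b)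
    {d : ℕ} (hd : (Triples2 a b).encard ≤ 2 ^ (d + 2))
    (P : Fin d → Pt (crv (algebraMap k[X] K a) (algebraMap k[X] K b)) K)
    (hP : ∀ S : Finset (Fin d), S.Nonempty →
      ∀ T Q : Pt (crv (algebraMap k[X] K a) (algebraMap k[X] K b)) K, T + T = 0 →
        ∑ i ∈ S, P i ≠ T + (Q + Q)) :
    ShaTwo k (crv (algebraMap k[X] K a) (algebraMap k[X] K b)) :=
  shaTwo_of_rank h2 ha hb hab hco hodd hd P hP

end Pool.Agent.Results.MP_72e2e6_nt.SelmerTwoDescent
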